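import Pool.Agent.W95.EQ.Stm
import Pool.Agent.W55.BK.T1

/-! Project EQM: the push-forward of continuous functions. -/

open Polynomial Topology Filter

namespace Pool.Agent.W696.EQ.PF

open Pool.Agent.W95.BK Pool.Agent.W95.EQ

set_option linter.unusedSectionVars false

universe u

section
variable {K : Type u} [NontriviallyNormedField K] [IsUltrametricDist K] [IsAlgClosed K]

lemma ld_eq (hLDU : S_LDU.{u}) (f : RMap K) (y : P1B K) (m : ℕ) (h : IsLocalDeg f y m) :
    localDeg f y = m := by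
  classical
  have hex : ∃ m, IsLocalDeg f y m := ⟨m, h⟩
  unfold localDeg
  rw [dif_pos hex]
  exact hLDU K f y _ _ (Nat.find_spec hex) h

lemma Q_ne (f : RMap K) : f.Q ≠ 0 := by
  intro h
  have h1 := f.cop
  rw [h, isCoprime_zero_right] at h1
  have h2 := natDegree_eq_zero_of_isUnit h1
  have h3 := f.deg_eq
  rw [h, h2, natDegree_zero] at h3
  have := f.pos
  simp at h3
  omega

lemma PQ_ne (f : RMap K) (b : K) : f.P - C b * f.Q ≠ 0 := by
  intro h
  have h1 := f.cop
  have h2 : f.P = C b * f.Q := sub_eq_zero.1 h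
  have h3 : IsUnit f.Q := by
    obtain ⟨s, t, hst⟩ := h1
    rw [h2] at hst
    exact IsUnit.of_mul_eq_one (s * C b + t) (by rw [← hst]; ring)
  have h4 := natDegree_eq_zero_of_isUnit h3
  have h5 : f.P.natDegree = 0 := by
    rw [h2]
    have := natDegree_C_mul_le b f.Q
    omega
  have h6 := f.deg_eq
  rw [h4, h5] at h6
  have := f.pos
  simp at h6
  omega

lemma degP (f : RMap K) : f.P.natDegree ≤ f.d := by
  have := f.deg_eq
  rw [← this]
  exact le_max_left _ _

lemma degQ (f : RMap K) : f.Q.natDegree ≤ f.d := by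
  have := f.deg_eq
  rw [← this]
  exact le_max_right _ _

lemma lt_of_coeff (h : K[X]) (d : ℕ) (hd : 1 ≤ d) (h1 : h.natDegree ≤ d) (h2 : h.coeff d = 0) :
    h.natDegree < d := by
  rcases h1.lt_or_eq with h3 | h3
  · exact h3
  · exfalso
    have h4 : h.leadingCoeff = 0 := by rw [leadingCoeff, h3, h2]
    rw [leadingCoeff_eq_zero] at h4
    rw [h4, natDegree_zero] at h3
    omega

/-- local degrees exist and are positive at all points -/
lemma ld_all (hLDEX : S_LDEX.{u}) (hLDU : S_LDU.{u}) (hF : S_LDCF.{u}) (hP : S_LDCP.{u})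
    (hI : S_LDCI.{u}) (f : RMap K) (y : P1B K) :
    IsLocalDeg f y (localDeg f y) ∧ 1 ≤ localDeg f y := by
  have key : ∀ m, 1 ≤ m → IsLocalDeg f y m → IsLocalDeg f y (localDeg f y) ∧ 1 ≤ localDeg f y := by
    intro m hm h
    rw [ld_eq hLDU f y m h]
    exact ⟨h, hm⟩
  induction y using OnePoint.rec with
  | infty =>
    by_cases h0 : f.Q.coeff f.d = 0
    · refine key _ ?_ ((hI K f).2 h0)
      have := lt_of_coeff f.Q f.d f.pos (degQ f) h0
      omega
    · refine key _ ?_ ((hI K f).1 h0)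
      have h1 : (f.P - C (f.P.coeff f.d / f.Q.coeff f.d) * f.Q).natDegree ≤ f.d := by
        refine (natDegree_sub_le _ _).trans (max_le (degP f) ?_)
        exact (natDegree_C_mul_le _ _).trans (degQ f)
      have h2 : (f.P - C (f.P.coeff f.d / f.Q.coeff f.d) * f.Q).coeff f.d = 0 := by
        rw [coeff_sub, coeff_C_mul, div_mul_cancel₀ _ h0, sub_self]
      have := lt_of_coeff _ f.d f.pos h1 h2
      omega
  | coe z =>
    by_cases hz : HK z
    · obtain ⟨m, hm1, hm2, -⟩ := hLDEX K f z hz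
      exact key m hm1 hm2
    · unfold HK at hz
      push Not at hz
      obtain ⟨w, rfl⟩ := hz
      by_cases h0 : f.Q.eval w = 0
      · refine key _ ?_ (hP K f w h0)
        exact Nat.succ_le_of_lt ((rootMultiplicity_pos (Q_ne f)).2 h0)
      · refine key _ ?_ (hF K f w h0)
        refine Nat.succ_le_of_lt ((rootMultiplicity_pos (PQ_ne f _)).2 ?_)
        rw [IsRoot.def, eval_sub, eval_mul, eval_C, div_mul_cancel₀ _ h0, sub_self]

/-- good neighbourhoods of finitely many points of the fibre -/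
lemma exists_nbhds (f : RMap K)
    (hLD : ∀ y : P1B K, IsLocalDeg f y (localDeg f y) ∧ 1 ≤ localDeg f y) (x : P1B K)
    (T : Finset (P1B K)) (hT : ∀ y ∈ T, f.act y = x) (V : P1B K → Set (P1B K))
    (hV : ∀ y, V y ∈ 𝓝 y) :
    ∃ U : P1B K → Set (P1B K), (∀ y ∈ T, U y ∈ 𝓝 y ∧ U y ⊆ V y) ∧
      ∀ᶠ b in toward x, ∀ y ∈ T, cnt f (U y) b = localDeg f y := by
  have key : ∀ y : P1B K, ∃ U : Set (P1B K), y ∈ T → (U ∈ 𝓝 y ∧ U ⊆ V y ∧
      ∀ᶠ b in toward x, cnt f U b = localDeg f y) := by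
    intro y
    by_cases hy : y ∈ T
    · obtain ⟨U, hU1, hU2, hU3⟩ := (hLD y).1 _ (hV _)
      rw [hT _ hy] at hU3
      exact ⟨U, fun _ => ⟨hU1, hU2, hU3⟩⟩
    · exact ⟨∅, fun h => absurd h hy⟩
  choose U hU using key
  refine ⟨U, fun y hy => ⟨(hU y hy).1, (hU y hy).2.1⟩, ?_⟩
  rw [Filter.eventually_all_finset]
  exact fun y hy => (hU y hy).2.2

lemma card_le (hT2 : S_T2.{u}) (hACT : S_ACT.{u}) (hDENSE : S_DENSE.{u}) (f : RMap K)
    (hLD : ∀ y : P1B K, IsLocalDeg f y (localDeg f y) ∧ 1 ≤ localDeg f y) (x : P1B K)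
    (T : Finset (P1B K)) (hT : ∀ y ∈ T, f.act y = x) : T.card ≤ f.d := by
  have : T2Space (P1B K) := (hT2 K).2.2.1
  obtain ⟨V, hV1, hV2⟩ := T.finite_toSet.t2_separation
  obtain ⟨U, hU1, hU2⟩ := exists_nbhds f hLD x T hT V
    (fun y => (hV1 y).2.mem_nhds (hV1 y).1)
  have := hDENSE K x
  obtain ⟨b, hb⟩ := hU2.exists
  have hdis : ∀ i ∈ T, ∀ j ∈ T, i ≠ j → Disjoint (U i) (U j) := by
    intro i hi j hj hij
    exact Set.disjoint_of_subset (hU1 i hi).2 (hU1 j hj).2 (hV2 hi hj hij)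
  have h1 := Pool.Agent.W55.BK.T1.part_le T U hdis (fib f b)
  rw [(hACT K f).2.2.2.2 b] at h1
  calc T.card = ∑ y ∈ T, 1 := by simp
    _ ≤ ∑ y ∈ T, localDeg f y := Finset.sum_le_sum fun y _ => (hLD y).2
    _ = ∑ y ∈ T, cnt f (U y) b := Finset.sum_congr rfl fun y hy => (hb y hy).symm
    _ ≤ f.d := h1

lemma fin_fibre (hT2 : S_T2.{u}) (hACT : S_ACT.{u}) (hDENSE : S_DENSE.{u}) (f : RMap K)
    (hLD : ∀ y : P1B K, IsLocalDeg f y (localDeg f y) ∧ 1 ≤ localDeg f y) (x : P1B K) :
    {y : P1B K | f.act y = x}.Finite := by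
  by_contra hinf
  obtain ⟨T, hT1, hT2'⟩ := Set.Infinite.exists_subset_card_eq hinf (f.d + 1)
  have := card_le hT2 hACT hDENSE f hLD x T (fun y hy => hT1 hy)
  omega

/-- the sums over the classical fibres converge at all points -/
lemma tend (hT2 : S_T2.{u}) (hACT : S_ACT.{u}) (hACTC : S_ACTC.{u}) (hDENSE : S_DENSE.{u})
    (f : RMap K)
    (hLD : ∀ y : P1B K, IsLocalDeg f y (localDeg f y) ∧ 1 ≤ localDeg f y) (x : P1B K)
    (φ : C(P1B K, ℝ)) :
    Tendsto (fun b => ((fib f b).map φ).sum) (toward x) (𝓝 (pushFun f φ x)) := by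
  have : T2Space (P1B K) := (hT2 K).2.2.1
  have hfin := fin_fibre hT2 hACT hDENSE f hLD x
  set T : Finset (P1B K) := hfin.toFinset with hTdef
  have hTm : ∀ y, y ∈ T ↔ f.act y = x := by
    intro y
    rw [hTdef, Set.Finite.mem_toFinset]
    rfl
  have hpush : pushFun f φ x = ∑ y ∈ T, (localDeg f y : ℝ) * φ y := by
    unfold Pool.Agent.W95.BK.pushFun
    rw [finsum_mem_eq_finite_toFinset_sum _ hfin]
  obtain ⟨V, hV1, hV2⟩ := T.finite_toSet.t2_separation
  rw [Metric.tendsto_nhds]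
  intro ε hε
  set δ : ℝ := ε / (f.d + 1) with hδ
  have hd0 : (0 : ℝ) < (f.d : ℝ) + 1 := by positivity
  have hδ0 : 0 < δ := div_pos hε hd0
  obtain ⟨U, hU1, hU2⟩ := exists_nbhds f hLD x T (fun y hy => (hTm y).1 hy)
    (fun y => V y ∩ {w | |φ w - φ y| < δ}) (by
      intro y
      refine inter_mem ((hV1 y).2.mem_nhds (hV1 y).1) ?_
      have h1 := (φ.continuous.tendsto y)
      have h2 := Metric.tendsto_nhds.1 h1 δ hδ0
      filter_upwards [h2] with w hw
      rwa [Real.dist_eq] at hw)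
  have hdis : ∀ i ∈ T, ∀ j ∈ T, i ≠ j → Disjoint (U i) (U j) := by
    intro i hi j hj hij
    exact Set.disjoint_of_subset ((hU1 i hi).2.trans Set.inter_subset_left)
      ((hU1 j hj).2.trans Set.inter_subset_left) (hV2 hi hj hij)
  set C : Set (P1B K) := (⋃ y ∈ T, interior (U y))ᶜ with hC
  have hCcl : IsClosed C := by
    rw [hC, isClosed_compl_iff]
    exact isOpen_biUnion fun y _ => isOpen_interior
  have hCc : IsCompact C := hCcl.isCompact
  have him : IsClosed (f.act '' C) := (hCc.image (hACTC K f)).isClosed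
  have hxn : x ∉ f.act '' C := by
    rintro ⟨c, hc, hcx⟩
    apply hc
    have hcT : c ∈ T := (hTm c).2 hcx
    exact Set.mem_biUnion hcT (mem_interior_iff_mem_nhds.2 (hU1 c hcT).1)
  have hev : ∀ᶠ b in toward x, ((cl b : BA K) : P1B K) ∉ f.act '' C := by
    have h1 : (f.act '' C)ᶜ ∈ 𝓝 x := him.isOpen_compl.mem_nhds hxn
    exact preimage_mem_comap h1
  filter_upwards [hev, hU2] with b hb1 hb2
  have hcov : ∀ w ∈ fib f b, ∃ y ∈ T, w ∈ U y := by
    intro w hw
    have h1 := (hACT K f).2.2.2.1 b w hw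
    have h2 : w ∉ C := fun h => hb1 ⟨w, h, h1⟩
    rw [hC, Set.mem_compl_iff, not_not] at h2
    obtain ⟨y, hy, hwy⟩ := Set.mem_iUnion₂.1 h2
    exact ⟨y, hy, interior_subset hwy⟩
  classical
  have e1 := Pool.Agent.W55.BK.T1.part T U hdis φ (fib f b) hcov
  have e2 : ∀ y ∈ T, |((Multiset.filter (fun w => w ∈ U y) (fib f b)).map φ).sum -
      (localDeg f y : ℝ) * φ y| ≤ (localDeg f y : ℝ) * δ := by
    intro y hy
    have h1 : (Multiset.filter (fun w => w ∈ U y) (fib f b)).card = localDeg f y := by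
      have := hb2 y hy
      unfold cnt at this
      exact this
    set s := Multiset.filter (fun w => w ∈ U y) (fib f b) with hs
    have h2 : ∀ w ∈ s, |φ w - φ y| ≤ δ := by
      intro w hw
      rw [hs, Multiset.mem_filter] at hw
      exact ((hU1 y hy).2 hw.2).2.le
    rw [← h1]
    clear_value s
    clear h1 hs
    induction s using Multiset.induction_on with
    | empty => simp
    | cons w s ih =>
      have h3 := ih (fun v hv => h2 v (Multiset.mem_cons_of_mem hv))
      have h4 := h2 w (Multiset.mem_cons_self w s)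
      rw [Multiset.map_cons, Multiset.sum_cons, Multiset.card_cons]
      push_cast
      have : φ w + (s.map φ).sum - ((s.card : ℝ) + 1) * φ y =
          (φ w - φ y) + ((s.map φ).sum - (s.card : ℝ) * φ y) := by ring
      rw [this]
      refine (abs_add_le _ _).trans ?_
      linarith
  have e3 : (∑ y ∈ T, (localDeg f y : ℝ)) ≤ f.d := by
    have h1 := Pool.Agent.W55.BK.T1.part_le T U hdis (fib f b)
    rw [(hACT K f).2.2.2.2 b] at h1
    have h2 : ∑ y ∈ T, localDeg f y ≤ f.d := by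
      refine le_trans (le_of_eq ?_) h1
      refine Finset.sum_congr rfl fun y hy => ?_
      have := hb2 y hy
      unfold cnt at this
      rw [← this]
    exact_mod_cast h2
  rw [Real.dist_eq, hpush, e1, ← Finset.sum_sub_distrib]
  calc |∑ y ∈ T, (((Multiset.filter (fun w => w ∈ U y) (fib f b)).map φ).sum -
      (localDeg f y : ℝ) * φ y)|
      ≤ ∑ y ∈ T, (localDeg f y : ℝ) * δ :=
        (Finset.abs_sum_le_sum_abs _ _).trans (Finset.sum_le_sum e2)
    _ = (∑ y ∈ T, (localDeg f y : ℝ)) * δ := by rw [Finset.sum_mul]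
    _ ≤ f.d * δ := mul_le_mul_of_nonneg_right e3 hδ0.le
    _ < ε := by
      rw [hδ]
      have : (f.d : ℝ) * (ε / (f.d + 1)) = ε * (f.d / (f.d + 1)) := by ring
      rw [this]
      have h2 : (f.d : ℝ) / (f.d + 1) < 1 := by
        rw [div_lt_one hd0]
        linarith
      nlinarith

end

theorem main : S_LDCF.{u} → S_LDCP.{u} → S_LDCI.{u} → S_LDEX.{u} → S_LDU.{u} → S_DENSE.{u} →
    S_ACT.{u} → S_ACTC.{u} → S_T2.{u} → S_PF.{u} := by
  intro hF hP hI hLDEX hLDU hDENSE hACT hACTC hT2 K _ _ _ f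
  have hLD := ld_all hLDEX hLDU hF hP hI f
  have ht := tend hT2 hACT hACTC hDENSE f hLD
  refine ⟨fin_fibre hT2 hACT hDENSE f hLD, fun x => ?_, fun φ => ⟨fun b => ?_, ?_⟩⟩
  · have h1 := ht x (ContinuousMap.const _ 1)
    have := hDENSE K x
    have h2 : (fun b => ((fib f b).map (ContinuousMap.const (P1B K) (1 : ℝ))).sum) =
        fun _ => (f.d : ℝ) := by
      funext b
      have h3 := (hACT K f).2.2.2.2 b
      simp only [ContinuousMap.const_apply, Multiset.map_const', Multiset.sum_replicate, h3,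
        nsmul_eq_mul, mul_one]
    rw [h2] at h1
    exact (tendsto_nhds_unique tendsto_const_nhds h1).symm
  · have h1 := ht ((cl b : BA K) : P1B K) φ
    have h2 : pure b ≤ toward ((cl b : BA K) : P1B K) := by
      unfold toward
      rw [← map_le_iff_le_comap, map_pure]
      exact pure_le_nhds _
    have h3 := h1.mono_left h2
    exact tendsto_nhds_unique h3 (tendsto_pure_nhds (fun b => ((fib f b).map φ).sum) b)
  · rw [continuous_iff_continuousAt]
    intro x
    rw [ContinuousAt, Metric.tendsto_nhds]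
    intro ε hε
    have h1 := Metric.tendsto_nhds.1 (ht x φ) (ε / 2) (by positivity)
    unfold toward at h1
    rw [eventually_comap] at h1
    obtain ⟨U, hU1, hU2, hU3⟩ := eventually_nhds_iff.1 h1
    filter_upwards [hU2.mem_nhds hU3] with x' hx'
    have h4 : ∀ᶠ b in toward x', dist (((fib f b).map φ).sum) (pushFun f φ x) ≤ ε / 2 := by
      have : {z : P1B K | z ∈ U} ∈ 𝓝 x' := hU2.mem_nhds hx'
      filter_upwards [preimage_mem_comap this] with b hb
      exact (hU1 _ hb b rfl).le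
    have := hDENSE K x'
    have h5 : dist (pushFun f φ x') (pushFun f φ x) ≤ ε / 2 :=
      le_of_tendsto ((ht x' φ).dist tendsto_const_nhds) h4
    linarith

end Pool.Agent.W696.EQ.PF
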